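import Mathlib.MeasureTheory.VectorMeasure.Variation.Basic
import Pool.Agent.MP_0f15b2_an.Om

/-!
The counterexample of the frozen negation, restated with the definitions of the problem file word
for word, on complete measure spaces (where measurable and almost everywhere measurable scalar
functions are the same).
-/

set_option autoImplicit false

open Filter Topology Set MeasureTheory
open scoped ENNReal

noncomputable section

namespace Pool.Agent.Results.MP_0f15b2_an.PerfectRange

/-- The range of a vector measure. -/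
def vrange {Ω X : Type} [MeasurableSpace Ω] [NormedAddCommGroup X] (ν : VectorMeasure Ω X) :
    Set X :=
  {x | ∃ E : Set Ω, MeasurableSet E ∧ ν E = x}

/-- Perfect measures, as in the problem file. -/
def IsPerfect {Ω : Type} [MeasurableSpace Ω] (μ : Measure Ω) : Prop :=
  ∀ g : Ω → ℝ, Measurable g → ∀ E : Set Ω, MeasurableSet E → 0 < μ E →
    ∃ K : Set ℝ, IsCompact K ∧ K ⊆ g '' E ∧ 0 < μ (g ⁻¹' K)

/-- Pettis differentiability with respect to the variation. -/
def PettisDiff {Ω X : Type} [MeasurableSpace Ω] [NormedAddCommGroup X] [NormedSpace ℝ X]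
    (ν : VectorMeasure Ω X) : Prop :=
  ∃ f : Ω → X, ∀ φ : X →L[ℝ] ℝ, Integrable (fun ω => φ (f ω)) ν.variation ∧
    ∀ E : Set Ω, MeasurableSet E → φ (ν E) = ∫ ω in E, φ (f ω) ∂ν.variation

open Pool.Agent.MP_0f15b2_an

section general

variable {Ω : Type} [MeasurableSpace Ω] (μ : Measure Ω) [IsFiniteMeasure μ] {p : Ω → Cn}

lemma variation_eq (hp : MeasurePreserving p μ lam) : (nu μ hp).variation = μ := by
  refine le_antisymm (VectorMeasure.variation_le_of_forall_enorm_le fun E hE => ?_) ?_
  · exact (enorm_nu μ hp hE).le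
  · refine Measure.le_iff.2 fun E hE => ?_
    exact (enorm_nu μ hp hE).ge.trans (VectorMeasure.enorm_measure_le_variation _ E)

lemma finite_completion : IsFiniteMeasure μ.completion :=
  ⟨measure_lt_top μ univ⟩

omit [IsFiniteMeasure μ] in
lemma mp_completion (hp : MeasurePreserving p μ lam) :
    MeasurePreserving (α := NullMeasurableSpace Ω μ) p μ.completion lam := by
  have hm : Measurable (α := NullMeasurableSpace Ω μ) p :=
    fun B hB => (hp.measurable hB).nullMeasurableSet
  refine ⟨hm, ?_⟩
  ext B hB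
  rw [Measure.map_apply hm hB]
  exact hp.measure_preimage hB.nullMeasurableSet

lemma nu_completion (hp : MeasurePreserving p μ lam) {E F : Set Ω} (hF : MeasurableSet F)
    (h : E =ᵐ[μ] F) :
    haveI := finite_completion μ
    nu μ.completion (mp_completion μ hp) E = nu μ hp F := by
  have := finite_completion μ
  have hE : MeasurableSet (α := NullMeasurableSpace Ω μ) E := hF.nullMeasurableSet.congr h.symm
  refine Subtype.ext ?_
  rw [coe_nu _ _ hE, coe_nu _ _ hF]
  refine lp.ext (funext fun s => ?_)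
  rw [nuA_apply, nuA_apply]
  have e : μ (E ∩ p ⁻¹' cyl s) = μ (F ∩ p ⁻¹' cyl s) :=
    measure_congr (h.inter (EventuallyEq.refl _ _))
  exact Prod.ext (congrArg ENNReal.toReal e) rfl

lemma vrange_completion (hp : MeasurePreserving p μ lam) :
    haveI := finite_completion μ
    vrange (nu μ.completion (mp_completion μ hp)) = vrange (nu μ hp) := by
  ext x
  constructor
  · rintro ⟨E, hE, rfl⟩
    obtain ⟨F, hF, h⟩ : NullMeasurableSet (α := Ω) E μ := hE
    exact ⟨F, hF, (nu_completion μ hp hF h).symm⟩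
  · rintro ⟨F, hF, rfl⟩
    exact ⟨F, hF.nullMeasurableSet, nu_completion μ hp hF (EventuallyEq.refl _ _)⟩

lemma perfect_completion
    (h : ∀ f : Ω → ℝ, Measurable f →
      ∃ B : Set ℝ, MeasurableSet B ∧ B ⊆ range f ∧ μ (f ⁻¹' B) = μ univ) :
    IsPerfect μ.completion := by
  classical
  intro g hg E hE hpos
  have hg0 : NullMeasurable (α := Ω) g μ := fun B hB => hg hB
  have hg1 : AEMeasurable (α := Ω) g μ := hg0.aemeasurable
  have hE0 : NullMeasurableSet (α := Ω) E μ := hE
  obtain ⟨g', hg', hgg⟩ := hg1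
  have hN : NullMeasurableSet (α := Ω) (E ∩ {x | g x = g' x}) μ :=
    hE0.inter (NullMeasurableSet.of_compl (NullMeasurableSet.of_null hgg))
  obtain ⟨F, hFs, hF, hFe⟩ := hN.exists_measurable_subset_ae_eq
  have hFpos : 0 < μ F := by
    rw [measure_congr hFe, measure_congr (inter_ae_eq_left_of_ae_eq_univ (ae_eq_univ.2 hgg))]
    exact hpos
  obtain ⟨x0, hx0⟩ := nonempty_of_measure_ne_zero hFpos.ne'
  set k : Ω → ℝ := F.piecewise g' fun _ => g' x0 with hk
  have hkm : Measurable k := Measurable.piecewise hF hg' measurable_const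
  have hkF : ∀ x ∈ F, k x = g x := fun x hx => by
    rw [hk, piecewise_eq_of_mem _ _ _ hx]
    exact (hFs hx).2.symm
  obtain ⟨B, hB, hBr, hBm⟩ := h k hkm
  have hB0 : μ (k ⁻¹' B)ᶜ = 0 := by
    rw [measure_compl (hkm hB) (measure_ne_top _ _), hBm, tsub_self]
  have hρ : 0 < ((μ.restrict F).map k) B := by
    rw [Measure.map_apply hkm hB, Measure.restrict_apply (hkm hB),
      measure_congr (inter_ae_eq_right_of_ae_eq_univ (ae_eq_univ.2 hB0))]
    exact hFpos
  obtain ⟨K, hKB, hK, hKpos⟩ := hB.exists_lt_isCompact hρ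
  refine ⟨K, hK, fun y hy => ?_, ?_⟩
  · obtain ⟨x, rfl⟩ := hBr (hKB hy)
    by_cases hx : x ∈ F
    · exact ⟨x, (hFs hx).1, (hkF x hx).symm⟩
    · refine ⟨x0, (hFs hx0).1, ?_⟩
      rw [hk, piecewise_eq_of_notMem _ _ _ hx]
      exact (hFs hx0).2
  · rw [Measure.map_apply hkm hK.measurableSet, Measure.restrict_apply (hkm hK.measurableSet)]
      at hKpos
    refine hKpos.trans_le (measure_mono (μ := μ) fun x hx => ?_)
    have e : k x ∈ K := hx.1
    rw [hkF x hx.2] at e
    exact e

omit [IsFiniteMeasure μ] in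
lemma of_completion {u : Ω → ℝ}
    (hu : Integrable (α := NullMeasurableSpace Ω μ) u μ.completion) :
    Integrable u μ ∧ ∀ A : Set Ω, MeasurableSet A →
      integral (α := NullMeasurableSpace Ω μ) (μ.completion.restrict A) u = ∫ ω in A, u ω ∂μ := by
  let i : NullMeasurableSpace Ω μ → Ω := fun x => x
  have him : Measurable i := fun B hB => hB.nullMeasurableSet
  have hi : MeasurePreserving i μ.completion μ := by
    refine ⟨him, ?_⟩
    ext B hB
    rw [Measure.map_apply him hB]
    rfl
  obtain ⟨v, hv, huv⟩ := hu.aestronglyMeasurable.aemeasurable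
  have hv0 : NullMeasurable (α := Ω) v μ := fun B hB => hv hB
  have huv' : u =ᵐ[μ] v := huv
  have hm : AEStronglyMeasurable u μ :=
    (hv0.aemeasurable.congr huv'.symm).aestronglyMeasurable
  refine ⟨(hi.integrable_comp hm).1 hu, fun A hA => ?_⟩
  have hr := hi.restrict_preimage hA
  have e := integral_map (φ := i) (μ := μ.completion.restrict (i ⁻¹' A)) him.aemeasurable
    (f := u) (by rw [hr.map_eq]; exact hm.restrict)
  rw [hr.map_eq] at e
  exact e.symm

end general

theorem result :
    ∃ (X : Type) (_ : NormedAddCommGroup X) (_ : NormedSpace ℝ X) (_ : CompleteSpace X)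
      (Ω₁ Ω₂ : Type) (_ : MeasurableSpace Ω₁) (_ : MeasurableSpace Ω₂)
      (ν₁ : VectorMeasure Ω₁ X) (ν₂ : VectorMeasure Ω₂ X),
      IsFiniteMeasure ν₁.variation ∧ IsFiniteMeasure ν₂.variation ∧
      ν₁.variation.IsComplete ∧ ν₂.variation.IsComplete ∧
      IsPerfect ν₁.variation ∧ IsPerfect ν₂.variation ∧
      vrange ν₁ = vrange ν₂ ∧ PettisDiff ν₁ ∧ ¬ PettisDiff ν₂ := by
  have h1 := finite_completion muO
  have h2 := finite_completion lam
  have hid := MeasurePreserving.id lam
  have hp1 := mp_completion muO mp_pr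
  have hp2 := mp_completion lam hid
  have e1 := variation_eq muO.completion hp1
  have e2 := variation_eq lam.completion hp2
  refine ⟨Xs, inferInstance, inferInstance, inferInstance, NullMeasurableSpace Om muO,
    NullMeasurableSpace Cn lam, inferInstance, inferInstance,
    nu muO.completion hp1, nu lam.completion hp2, e1.symm ▸ h1, e2.symm ▸ h2,
    e1.symm ▸ inferInstance, e2.symm ▸ inferInstance,
    e1.symm ▸ perfect_completion muO perfect_muO, e2.symm ▸ perfect_completion lam perfect_lam,
    ?_, ?_, ?_⟩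
  · exact (vrange_completion muO mp_pr).trans (range_eq.trans (vrange_completion lam hid).symm)
  · refine ⟨gO, fun φ => ?_⟩
    obtain ⟨ξ, hξ, -⟩ := exists_extension_norm_eq Xs φ
    have hae : (fun ω : NullMeasurableSpace Om muO => hh ξ (pr ω)) =ᵐ[muO.completion]
        fun ω => φ (gO ω) := by
      filter_upwards [show ∀ᵐ ω ∂muO.completion, ξ (gO ω) = hh ξ (pr ω) from ae_gO ξ] with ω hω
      rw [← hω, hξ]
    refine e1.symm ▸ ⟨(integrable_hh muO.completion hp1.measurable ξ).congr hae, fun A hA => ?_⟩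
    exact ((hξ _).symm.trans ((congrArg ξ (coe_nu _ hp1 hA)).trans
      (apply_nuA muO.completion hp1 ξ A))).trans (integral_congr_ae (ae_restrict_of_ae hae))
  · rintro ⟨g, hg⟩
    refine not_pettis_cn ⟨g, fun φ => ?_⟩
    obtain ⟨hi, hA⟩ := hg φ
    obtain ⟨k1, k2⟩ := of_completion lam (u := fun ω => φ (g ω)) (e2 ▸ hi)
    refine ⟨k1, fun A hAm => ?_⟩
    have k3 := (hA A hAm.nullMeasurableSet).trans (congrArg
      (fun m : Measure (NullMeasurableSpace Cn lam) => ∫ ω in A, φ (g ω) ∂m) e2)
    exact ((congrArg φ (nu_completion lam hid hAm (EventuallyEq.refl _ _))).symm.trans k3).trans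
      (k2 A hAm)

end Pool.Agent.Results.MP_0f15b2_an.PerfectRange
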